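import Pool.Agent.Helper21.MT9.KIR

/-!
# ABE: the inner part of the degree zero component is abelian
-/

set_option autoImplicit false

open NumberField MU

namespace MT

open Kir

/-- ABE -/
theorem st_ABE : ST_ABE := by
  classical
  intro K _ _ n ε ψ d N a hD A hA B hB hA0 hB0 i j hi
  have hA0' := (cmp_zero_iff d A).mp hA0
  have hB0' := (cmp_zero_iff d B).mp hB0
  by_cases hij : d i = d j
  swap
  · exact (cmp_zero_iff d _).mp (cmp_zero_sub (cmp_zero_mul hA0 hB0) (cmp_zero_mul hB0 hA0)) i j hij
  by_cases h0 : d i = 0
  swap
  · -- one-dimensional blocks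
    have h1 := hD.thin (d i) hi h0
    have h2 : ∀ k, d k = d i → k = i := by
      intro k hk
      exact Finset.card_le_one.mp h1 k (Finset.mem_filter.mpr ⟨Finset.mem_univ _, hk⟩) i
        (Finset.mem_filter.mpr ⟨Finset.mem_univ _, rfl⟩)
    have h3 : j = i := h2 j hij.symm
    subst h3
    have h4 : ∀ C D : Matrix (Fin n) (Fin n) K, (∀ i j, d i ≠ d j → C i j = 0) →
        (C * D) j j = C j j * D j j := by
      intro C D hC
      rw [Matrix.mul_apply, Finset.sum_eq_single j]
      · intro k _ hk
        rw [hC j k (fun h => hk (h2 k h.symm)), zero_mul]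
      · intro h
        exact absurd (Finset.mem_univ _) h
    rw [Matrix.sub_apply, h4 A B hA0', h4 B A hB0', mul_comm, sub_self]
  · -- the middle block
    have hε : ε = 1 := by
      rcases hD.sign with h | h
      · exact h
      · exact absurd h0 (hD.mid' h i)
    have hsym : ∀ x y, ψ x y = ψ y x := by
      intro x y
      have h1 := congrFun (congrFun hD.symm y) x
      rw [hε, one_smul] at h1
      exact h1
    -- skew symmetry of `ψ A`
    have hskew : ∀ C ∈ a, ∀ x y, (ψ * C) x y = -(ψ * C) y x := by
      intro C hC x y
      have h1 := congrFun (congrFun (hD.iso C hC) x) y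
      rw [Matrix.add_apply, Matrix.zero_apply] at h1
      have h2 : (C.transpose * ψ) x y = (ψ * C) y x := by
        rw [Matrix.mul_apply, Matrix.mul_apply]
        refine Finset.sum_congr rfl fun k _ => ?_
        rw [Matrix.transpose_apply, mul_comm, hsym k y]
      rw [h2] at h1
      linear_combination h1
    have hdiag : ∀ C ∈ a, ∀ x, (ψ * C) x x = 0 := by
      intro C hC x
      have h1 := hskew C hC x x
      have h2 : (2 : K) * (ψ * C) x x = 0 := by linear_combination h1
      exact (mul_eq_zero.mp h2).resolve_left two_ne_zero
    have hg : ∀ x y, d x = 0 → d y ≠ 0 → ψ x y = 0 := by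
      intro x y hx hy
      by_contra h
      have := hD.grad x y h
      rw [hx, zero_add] at this
      exact hy this
    have hg' : ∀ x y, d y = 0 → d x ≠ 0 → ψ x y = 0 := by
      intro x y hx hy
      rw [hsym]
      exact hg y x hx hy
    -- products in the middle block
    have hj0 : d j = 0 := hij.symm.trans h0
    have hprod : ∀ C D : Matrix (Fin n) (Fin n) K, (∀ i j, d i ≠ d j → C i j = 0) → ∀ x y,
        d x = 0 → (C * D) x y = ∑ k ∈ Finset.univ.filter (fun k => d k = 0), C x k * D k y := by
      intro C D hC x y hx
      rw [Matrix.mul_apply, Finset.sum_filter]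
      refine Finset.sum_congr rfl fun k _ => ?_
      split_ifs with h1
      · rfl
      · rw [hC x k (fun h => h1 (h.symm.trans hx)), zero_mul]
    have hprodψ : ∀ D : Matrix (Fin n) (Fin n) K, ∀ x y,
        d x = 0 → (ψ * D) x y = ∑ k ∈ Finset.univ.filter (fun k => d k = 0), ψ x k * D k y := by
      intro D x y hx
      rw [Matrix.mul_apply, Finset.sum_filter]
      refine Finset.sum_congr rfl fun k _ => ?_
      split_ifs with h1
      · rfl
      · rw [hg x k hx h1, zero_mul]
    -- `ψ (A B - B A)` vanishes on the middle block
    have hcard := hD.mid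
    have hmem : ∀ x, x ∈ Finset.univ.filter (fun k : Fin n => d k = 0) ↔ d x = 0 := by
      intro x
      rw [Finset.mem_filter]
      exact ⟨fun h => h.2, fun h => ⟨Finset.mem_univ _, h⟩⟩
    -- it is enough to show that `C = A B - B A` is zero on the block; `C` is in `a`
    have hC : A * B - B * A ∈ a := hD.brk A hA B hB
    -- determinant of the block is a unit: use the inverse of `ψ`
    have hunit : IsUnit ψ.det := isUnit_iff_ne_zero.mpr hD.unit
    have hker : ∀ v : Fin n → K, (∀ x, d x ≠ 0 → v x = 0) → (∀ x, d x = 0 → (ψ.mulVec v) x = 0) →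
        v = 0 := by
      intro v hv hψv
      have h1 : ψ.mulVec v = 0 := by
        ext x
        by_cases hx : d x = 0
        · exact hψv x hx
        · show ∑ k, ψ x k * v k = 0
          refine Finset.sum_eq_zero fun k _ => ?_
          by_cases hk : d k = 0
          · rw [hg' x k hk hx, zero_mul]
          · rw [hv k hk, mul_zero]
      have h2 : (ψ⁻¹).mulVec (ψ.mulVec v) = v := by
        rw [Matrix.mulVec_mulVec, Matrix.nonsing_inv_mul _ hunit, Matrix.one_mulVec]
      rw [← h2, h1, Matrix.mulVec_zero]
    -- the column `j` of `C`
    set C := A * B - B * A with hCdef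
    have hC0 : ∀ x, d x ≠ 0 → C x j = 0 := by
      intro x hx
      exact (cmp_zero_iff d _).mp (cmp_zero_sub (cmp_zero_mul hA0 hB0) (cmp_zero_mul hB0 hA0)) x j
        (fun h => hx (h.trans hj0))
    have hgoal : (fun x => C x j) = 0 := by
      apply hker _ hC0
      intro x hx
      have h1 : (ψ.mulVec fun x => C x j) x = (ψ * C) x j := by
        rw [Matrix.mul_apply]
        rfl
      rw [h1]
      by_cases hxj : x = j
      · rw [hxj]; exact hdiag C hC j
      -- the block is `{x, j}`
      have hblock : Finset.univ.filter (fun k : Fin n => d k = 0) = {x, j} := by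
        symm
        apply Finset.eq_of_subset_of_card_le
        · intro y hy
          rw [Finset.mem_insert, Finset.mem_singleton] at hy
          rw [hmem]
          rcases hy with rfl | rfl
          · exact hx
          · exact hj0
        · rw [Finset.card_pair hxj]
          exact hcard
      have hsplit : ∀ y, d y = 0 → y = x ∨ y = j := by
        intro y hy
        have h2 := (hmem y).mpr hy
        rw [hblock, Finset.mem_insert, Finset.mem_singleton] at h2
        exact h2
      set s := (ψ * A) x j with hs
      set t := (ψ * B) x j with ht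
      have hv : (fun k => s * B k j - t * A k j) = 0 := by
        apply hker
        · intro k hk
          show s * B k j - t * A k j = 0
          rw [hA0' k j (fun h => hk (h.trans hj0)), hB0' k j (fun h => hk (h.trans hj0)), mul_zero,
            mul_zero, sub_zero]
        · intro y hy
          have h2 : (ψ.mulVec fun k => s * B k j - t * A k j) y = s * (ψ * B) y j - t * (ψ * A) y j := by
            show ∑ k, ψ y k * (s * B k j - t * A k j) = _
            rw [Matrix.mul_apply, Matrix.mul_apply, Finset.mul_sum, Finset.mul_sum,
              ← Finset.sum_sub_distrib]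
            refine Finset.sum_congr rfl fun k _ => ?_
            ring
          rw [h2]
          rcases hsplit y hy with rfl | rfl
          · rw [← hs, ← ht]; ring
          · rw [hdiag A hA, hdiag B hB]; ring
      have hvj := congrFun hv j
      have hψ2 : ∀ D E : Matrix (Fin n) (Fin n) K, D ∈ a → (∀ i j, d i ≠ d j → D i j = 0) →
          (ψ * (D * E)) x j = (ψ * D) x j * E j j := by
        intro D E hD1 hD2
        rw [← Matrix.mul_assoc, Matrix.mul_apply]
        have h3 : ∀ k, d k ≠ 0 → (ψ * D) x k = 0 := by
          intro k hk
          rw [Matrix.mul_apply]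
          refine Finset.sum_eq_zero fun l _ => ?_
          by_cases hl : d l = 0
          · rw [hD2 l k (fun h => hk (h.symm.trans hl)), mul_zero]
          · rw [hg x l hx hl, zero_mul]
        have h4 : ∑ k, (ψ * D) x k * E k j =
            ∑ k ∈ Finset.univ.filter (fun k => d k = 0), (ψ * D) x k * E k j := by
          rw [Finset.sum_filter]
          refine Finset.sum_congr rfl fun k _ => ?_
          split_ifs with h5
          · rfl
          · rw [h3 k h5, zero_mul]
        rw [h4, hblock, Finset.sum_pair hxj, hdiag D hD1 x, zero_mul, zero_add]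
      rw [hCdef, Matrix.mul_sub, Matrix.sub_apply, hψ2 A B hA hA0', hψ2 B A hB hB0']
      exact hvj
    exact congrFun hgoal i

end MT
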