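import Pool.Agent.Helper21.MT9.Stmts
import Pool.Agent.Helper40.MT.Main
import Pool.Agent.Helper40.MT.MainC

/-!
# FUL9: the Lie algebra is large
-/

set_option autoImplicit false

open NumberField MU

namespace MT

variable {F : Type} [Field F] [NumberField F] {S : Finset ℕ} {n w : ℕ} {h : Fin n → ℕ}

/-- Sen's theorem: the Hodge-Tate operator is in the span of the Lie algebra over an algebraically
closed field -/
theorem PMot.sen_span (M : PMot F S n w h) (l : ℕ) [Fact l.Prime] :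
    ∃ (C : Type) (_ : Field C) (_ : IsAlgClosed C) (_ : Algebra ℚ_[l] C)
      (P : Matrix.GeneralLinearGroup (Fin n) C), ∀ H : Subgroup (Gal F),
        IsOpen (H : Set (Gal F)) →
        (P : Matrix (Fin n) (Fin n) C) * Matrix.diagonal (fun j => (h j : C)) *
          ((P⁻¹ : Matrix.GeneralLinearGroup (Fin n) C) : Matrix (Fin n) (Fin n) C) ∈
        Submodule.span C {B | ∃ A ∈ LieZ (H.map (M.ρ l)), B = A.map (algebraMap ℚ_[l] C)} := by
  obtain ⟨C₀, _, _, P, hP⟩ := M.sen l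
  let C := AlgebraicClosure C₀
  letI : Algebra ℚ_[l] C := ((algebraMap C₀ C).comp (algebraMap ℚ_[l] C₀)).toAlgebra
  have halg : algebraMap ℚ_[l] C = (algebraMap C₀ C).comp (algebraMap ℚ_[l] C₀) := rfl
  haveI : CharZero C := charZero_of_injective_algebraMap (algebraMap ℚ_[l] C).injective
  let P' : Matrix.GeneralLinearGroup (Fin n) C :=
    Matrix.GeneralLinearGroup.map (algebraMap C₀ C) P
  refine ⟨C, inferInstance, inferInstance, inferInstance, P', ?_⟩
  intro H hH
  have hmap : (P' : Matrix (Fin n) (Fin n) C) * Matrix.diagonal (fun j => (h j : C)) *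
      ((P'⁻¹ : Matrix.GeneralLinearGroup (Fin n) C) : Matrix (Fin n) (Fin n) C) =
      ((P : Matrix (Fin n) (Fin n) C₀) * Matrix.diagonal (fun j => (h j : C₀)) *
      ((P⁻¹ : Matrix.GeneralLinearGroup (Fin n) C₀) : Matrix (Fin n) (Fin n) C₀)).map
        (algebraMap C₀ C) := by
    rw [Matrix.map_mul, Matrix.map_mul, Matrix.diagonal_map (map_zero _)]
    have h1 : (P'⁻¹ : Matrix.GeneralLinearGroup (Fin n) C) =
        Matrix.GeneralLinearGroup.map (algebraMap C₀ C) P⁻¹ := by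
      rw [map_inv]
    rw [h1]
    simp only [map_natCast]
    rfl
  rw [hmap]
  refine mem_span_of_forms
    (I := {f : MvPolynomial (Fin n × Fin n) ℚ_[l] // ∀ σ ∈ H, ev (mat (M.ρ l) σ) f = 0})
    (fun f i j => ev (1 : Matrix (Fin n) (Fin n) ℚ_[l]) (MvPolynomial.pderiv (i, j) f.1))
    (LieZ (H.map (M.ρ l))) ?_ C _ ?_
  · intro A hA f hf
    refine hA ⟨f, fun σ hσ => ?_⟩
    exact hf (M.ρ l σ) (Subgroup.mem_map_of_mem _ hσ)
  · intro f
    have h2 := congrArg (algebraMap C₀ C) (hP H hH f.1 f.2)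
    simp only [map_sum, map_zero, map_mul] at h2
    simp only [Matrix.map_apply, halg, RingHom.comp_apply]
    exact h2

/-- FUL9 -/
theorem st_FUL9 (irl : ST_IRL) (tos : ST_TOS) (zar : ST_ZAR) (hsm : ST_HSM) : ST_FUL9 := by
  intro F _ _ S n w h M l _ hw hT hM H hH A hA
  obtain ⟨C, _, _, _, P, hP⟩ := M.sen_span l
  haveI : CharZero C := charZero_of_injective_algebraMap (algebraMap ℚ_[l] C).injective
  obtain ⟨zbr, -, -, zsim, -⟩ := zar ℚ_[l] n (H.map (M.ρ l))
  have hdet := bas_det ℚ_[l] M.ψ M.ψ_det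
  have hsym := bas_sym ℚ_[l] M.ψ w M.ψ_sym
  refine tos ℚ_[l] C n w h (bas ℚ_[l] M.ψ) P (LieZ (H.map (M.ρ l))) hT hdet hsym zbr
    (zsim _ hdet ?_) (hsm F S n w h M) (irl F S n w h M l hw hM H hH C) (hP H hH) A hA
  rintro _ ⟨g, -, rfl⟩
  exact ⟨_, M.gal_sim l g⟩

end MT
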