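import Pool.Agent.Helper21.MT9.FUL9
import Pool.Agent.Helper43.MU.Sub
import Pool.Agent.Helper40.MT.MainA

/-!
# IRL: the Lie algebra is absolutely irreducible
-/

set_option autoImplicit false

open NumberField MU

namespace MT

/-- a subspace stable under `z` is stable under the algebra generated by `z` -/
theorem stable_adjoin {K₀ K : Type} [Field K₀] [Field K] [Algebra K₀ K] {n : ℕ}
    {z g : Matrix (Fin n) (Fin n) K₀} (hg : g ∈ Algebra.adjoin K₀ {z})
    (U : Submodule K (Fin n → K)) (hU : ∀ v ∈ U, (z.map (algebraMap K₀ K)).mulVec v ∈ U) :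
    ∀ v ∈ U, (g.map (algebraMap K₀ K)).mulVec v ∈ U := by
  induction hg using Algebra.adjoin_induction with
  | mem x hx =>
    rw [Set.mem_singleton_iff] at hx
    subst hx
    exact hU
  | algebraMap r =>
    intro v hv
    have h1 : ((algebraMap K₀ (Matrix (Fin n) (Fin n) K₀) r).map (algebraMap K₀ K)).mulVec v =
        (algebraMap K₀ K r) • v := by
      rw [Matrix.algebraMap_eq_diagonal, Matrix.diagonal_map (map_zero _)]
      ext i
      rw [Matrix.mulVec_diagonal, Pi.smul_apply, smul_eq_mul]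
      rfl
    rw [h1]
    exact U.smul_mem _ hv
  | add x y _ _ hx hy =>
    intro v hv
    rw [Matrix.map_add _ (map_add _), Matrix.add_mulVec]
    exact U.add_mem (hx v hv) (hy v hv)
  | mul x y _ _ hx hy =>
    intro v hv
    rw [Matrix.map_mul, ← Matrix.mulVec_mulVec]
    exact hx _ (hy v hv)

theorem LieZ_mono {K₀ : Type} [Field K₀] {n : ℕ}
    {X Y : Subgroup (Matrix.GeneralLinearGroup (Fin n) K₀)} (hXY : X ≤ Y) : LieZ X ≤ LieZ Y := by
  intro A hA f hf
  exact hA f fun x hx => hf x (hXY hx)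

/-- the middle eigenvector -/
theorem mid_facts {K : Type} [Field K] [CharZero K] {n w : ℕ} {h : Fin n → ℕ} (hmid : Mid w h)
    (P : Matrix.GeneralLinearGroup (Fin n) K) (Θ : Matrix (Fin n) (Fin n) K)
    (hΘ : Θ = (P : Matrix (Fin n) (Fin n) K) * Matrix.diagonal (fun j => (h j : K)) *
      ((P⁻¹ : Matrix.GeneralLinearGroup (Fin n) K) : Matrix (Fin n) (Fin n) K)) :
    ∃ e : Fin n → K, e ≠ 0 ∧ Θ.mulVec e = ((w : K) / 2) • e ∧
      (∀ v, Θ.mulVec v = ((w : K) / 2) • v → ∃ c : K, v = c • e) ∧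
      (∀ v : Fin n → K, (Θ - ((w : K) / 2) • (1 : Matrix (Fin n) (Fin n) K)).mulVec
        ((Θ - ((w : K) / 2) • (1 : Matrix (Fin n) (Fin n) K)).mulVec v) = 0 →
          Θ.mulVec v = ((w : K) / 2) • v) := by
  classical
  obtain ⟨j0, hj0⟩ := Finset.card_eq_one.mp hmid
  have hj0m : 2 * h j0 = w := by
    have h1 : j0 ∈ (Finset.univ.filter fun j => 2 * h j = w) := by
      rw [hj0]; exact Finset.mem_singleton_self _
    exact (Finset.mem_filter.mp h1).2
  have huniq : ∀ j, 2 * h j = w → j = j0 := by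
    intro j hj
    have h1 : j ∈ (Finset.univ.filter fun j => 2 * h j = w) :=
      Finset.mem_filter.mpr ⟨Finset.mem_univ _, hj⟩
    rw [hj0] at h1
    exact Finset.mem_singleton.mp h1
  set r : K := (w : K) / 2 with hr
  have h2 : (2 : K) ≠ 0 := two_ne_zero
  have hdiag : ∀ j, ((h j : K) - r = 0) → j = j0 := by
    intro j hj
    apply huniq
    have h3 : (2 : K) * (h j : K) = w := by
      have : (h j : K) = r := sub_eq_zero.mp hj
      rw [this, hr]
      field_simp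
    exact_mod_cast h3
  have hj0r : (h j0 : K) = r := by
    rw [hr, ← hj0m]
    push_cast
    field_simp
  set Q : Matrix (Fin n) (Fin n) K := (P : Matrix (Fin n) (Fin n) K) with hQ
  set Q' : Matrix (Fin n) (Fin n) K :=
    ((P⁻¹ : Matrix.GeneralLinearGroup (Fin n) K) : Matrix (Fin n) (Fin n) K) with hQ'
  have hQQ' : Q * Q' = 1 := by
    rw [hQ, hQ', ← Units.val_mul, mul_inv_cancel, Units.val_one]
  have hQ'Q : Q' * Q = 1 := by
    rw [hQ, hQ', ← Units.val_mul, inv_mul_cancel, Units.val_one]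
  have hconj : ∀ v : Fin n → K, Q'.mulVec (Θ.mulVec v) =
      (Matrix.diagonal fun j => (h j : K)).mulVec (Q'.mulVec v) := by
    intro v
    rw [hΘ, Matrix.mulVec_mulVec, Matrix.mulVec_mulVec, ← Matrix.mul_assoc, ← Matrix.mul_assoc,
      hQ'Q, Matrix.one_mul]
  have hinj : ∀ v w' : Fin n → K, Q'.mulVec v = Q'.mulVec w' → v = w' := by
    intro v w' hvw
    have h3 := congrArg (fun x => Q.mulVec x) hvw
    simp only [Matrix.mulVec_mulVec, hQQ', Matrix.one_mulVec] at h3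
    exact h3
  have hQQ : ∀ u : Fin n → K, Q'.mulVec (Q.mulVec u) = u := by
    intro u
    rw [Matrix.mulVec_mulVec, hQ'Q, Matrix.one_mulVec]
  refine ⟨Q.mulVec (Pi.single j0 1), ?_, ?_, ?_, ?_⟩
  · intro h3
    have h4 := congrArg (fun x => Q'.mulVec x) h3
    simp only [Matrix.mulVec_mulVec, hQ'Q, Matrix.one_mulVec, Matrix.mulVec_zero] at h4
    have h5 := congrFun h4 j0
    rw [Pi.single_eq_same, Pi.zero_apply] at h5
    exact one_ne_zero h5
  · apply hinj
    rw [hconj, Matrix.mulVec_smul, hQQ]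
    ext j
    rw [Matrix.mulVec_diagonal, Pi.smul_apply, smul_eq_mul]
    by_cases hj : j = j0
    · subst hj
      rw [Pi.single_eq_same, hj0r]
    · rw [Pi.single_eq_of_ne hj, mul_zero, mul_zero]
  · intro v hv
    refine ⟨(Q'.mulVec v) j0, ?_⟩
    apply hinj
    rw [Matrix.mulVec_smul, hQQ]
    have h3 : Q'.mulVec (Θ.mulVec v) = Q'.mulVec (r • v) := congrArg (fun x => Q'.mulVec x) hv
    rw [hconj, Matrix.mulVec_smul] at h3
    ext j
    rw [Pi.smul_apply, smul_eq_mul]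
    by_cases hj : j = j0
    · subst hj
      rw [Pi.single_eq_same, mul_one]
    · rw [Pi.single_eq_of_ne hj, mul_zero]
      have h4 := congrFun h3 j
      rw [Matrix.mulVec_diagonal, Pi.smul_apply, smul_eq_mul] at h4
      have h5 : ((h j : K) - r) * (Q'.mulVec v) j = 0 := by rw [sub_mul, h4, sub_self]
      rcases mul_eq_zero.mp h5 with h6 | h6
      · exact absurd (hdiag j h6) hj
      · exact h6
  · intro v hv
    have h3 : ∀ u : Fin n → K, Q'.mulVec ((Θ - r • (1 : Matrix (Fin n) (Fin n) K)).mulVec u) =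
        fun j => ((h j : K) - r) * (Q'.mulVec u) j := by
      intro u
      rw [Matrix.sub_mulVec, Matrix.smul_mulVec, Matrix.one_mulVec, Matrix.mulVec_sub, hconj,
        Matrix.mulVec_smul]
      ext j
      rw [Pi.sub_apply, Matrix.mulVec_diagonal, Pi.smul_apply, smul_eq_mul, sub_mul]
    have h4 : Q'.mulVec ((Θ - r • (1 : Matrix (Fin n) (Fin n) K)).mulVec
        ((Θ - r • (1 : Matrix (Fin n) (Fin n) K)).mulVec v)) = Q'.mulVec 0 :=
      congrArg (fun x => Q'.mulVec x) hv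
    rw [h3, h3, Matrix.mulVec_zero] at h4
    apply hinj
    rw [hconj, Matrix.mulVec_smul]
    ext j
    rw [Matrix.mulVec_diagonal, Pi.smul_apply, smul_eq_mul]
    have h5 := congrFun h4 j
    simp only [Pi.zero_apply] at h5
    rcases mul_eq_zero.mp h5 with h6 | h6
    · rw [sub_eq_zero.mp h6]
    · rcases mul_eq_zero.mp h6 with h7 | h7
      · rw [sub_eq_zero.mp h7]
      · rw [h7, mul_zero, mul_zero]

/-- the multiplier of the grading element -/
theorem theta_sim {K₀ K : Type} [Field K₀] [Field K] [CharZero K] [Algebra K₀ K] {n w : ℕ}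
    {h : Fin n → ℕ} (hn : 1 ≤ n) (ψ : Matrix (Fin n) (Fin n) K₀) (hψ : ψ.det ≠ 0)
    (a : Submodule K₀ (Matrix (Fin n) (Fin n) K₀))
    (ha : ∀ A ∈ a, ∃ c : K₀, A.transpose * ψ + ψ * A = c • ψ)
    (P : Matrix.GeneralLinearGroup (Fin n) K) (Θ : Matrix (Fin n) (Fin n) K)
    (hΘ : Θ = (P : Matrix (Fin n) (Fin n) K) * Matrix.diagonal (fun j => (h j : K)) *
      ((P⁻¹ : Matrix.GeneralLinearGroup (Fin n) K) : Matrix (Fin n) (Fin n) K))
    (hmem : Θ ∈ Submodule.span K {B | ∃ A ∈ a, B = A.map (algebraMap K₀ K)})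
    (hsum : 2 * ∑ j, h j = n * w) :
    Θ.transpose * ψ.map (algebraMap K₀ K) + ψ.map (algebraMap K₀ K) * Θ =
      (2 * ((w : K) / 2)) • ψ.map (algebraMap K₀ K) := by
  have hc : ∃ c : K, Θ.transpose * ψ.map (algebraMap K₀ K) + ψ.map (algebraMap K₀ K) * Θ =
      c • ψ.map (algebraMap K₀ K) := by
    clear hΘ
    induction hmem using Submodule.span_induction with
    | mem x hx =>
      obtain ⟨A, hA, rfl⟩ := hx
      obtain ⟨c, hc⟩ := ha A hA
      refine ⟨algebraMap K₀ K c, ?_⟩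
      have h1 : (A.transpose * ψ + ψ * A).map (algebraMap K₀ K) = (c • ψ).map (algebraMap K₀ K) :=
        congrArg (fun X => X.map (algebraMap K₀ K)) hc
      rw [Matrix.map_add _ (map_add _), Matrix.map_mul, Matrix.map_mul] at h1
      rw [Matrix.transpose_map] at h1
      rw [h1]
      ext i j
      simp
    | zero => exact ⟨0, by simp⟩
    | add x y _ _ hx hy =>
      obtain ⟨c, hc⟩ := hx
      obtain ⟨c', hc'⟩ := hy
      refine ⟨c + c', ?_⟩
      rw [Matrix.transpose_add, add_mul, mul_add, add_smul, ← hc, ← hc']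
      abel
    | smul s x _ hx =>
      obtain ⟨c, hc⟩ := hx
      refine ⟨s * c, ?_⟩
      rw [Matrix.transpose_smul, smul_mul_assoc, mul_smul_comm, ← smul_add, hc, smul_smul]
  obtain ⟨c, hc⟩ := hc
  set ψ' := ψ.map (algebraMap K₀ K) with hψ'
  have hdet : IsUnit ψ'.det := by
    rw [isUnit_iff_ne_zero]
    have h1 : ψ'.det = algebraMap K₀ K ψ.det := by
      rw [hψ', RingHom.map_det]; rfl
    rw [h1]
    intro h2
    exact hψ ((map_eq_zero _).mp h2)
  have htr : Θ.trace = ∑ j, (h j : K) := by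
    rw [hΘ, Matrix.trace_mul_comm, ← Matrix.mul_assoc, ← Units.val_mul, inv_mul_cancel,
      Units.val_one, Matrix.one_mul, Matrix.trace_diagonal]
  have h1 : (ψ'⁻¹ * (Θ.transpose * ψ' + ψ' * Θ)).trace = (ψ'⁻¹ * (c • ψ')).trace :=
    congrArg (fun X => (ψ'⁻¹ * X).trace) hc
  rw [Matrix.mul_add, Matrix.trace_add, ← Matrix.mul_assoc, ← Matrix.mul_assoc,
    Matrix.nonsing_inv_mul _ hdet, Matrix.one_mul, Matrix.trace_mul_comm, ← Matrix.mul_assoc,
    Matrix.mul_nonsing_inv _ hdet, Matrix.one_mul, Matrix.trace_transpose, Matrix.mul_smul,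
    Matrix.nonsing_inv_mul _ hdet, Matrix.trace_smul, Matrix.trace_one, Fintype.card_fin,
    smul_eq_mul, htr] at h1
  have h2 : (2 : K) * ∑ j, (h j : K) = n * w := by exact_mod_cast congrArg (Nat.cast : ℕ → K) hsum
  have hnK : (n : K) ≠ 0 := by
    rw [Nat.cast_ne_zero]; omega
  have h3 : c = w := by
    have : (n : K) * c = n * w := by
      rw [← h2]
      linear_combination (-1 : K) * h1
    exact mul_left_cancel₀ hnK this
  rw [hc, h3]
  congr 1
  field_simp

/-- IRL -/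
theorem st_IRL (lgp : ST_LGP) (den : ST_DEN) (oi1 : ST_OI1) (oi2 : ST_OI2) (zar : ST_ZAR)
    (hsm : ST_HSM) : ST_IRL := by
  intro F _ _ S n w h M l _ hw hM H hH K _ _ U hU
  rcases hM with hM | ⟨hmid, hirr⟩
  · obtain ⟨V, hV, h1V, hVz⟩ := lgp l n
    have hpre : (M.ρ l) ⁻¹' V ∈ nhds (1 : Gal F) := by
      apply (hV.preimage (M.continuous l)).mem_nhds
      show M.ρ l 1 ∈ V
      rw [map_one]
      exact h1V
    obtain ⟨E, hE, hEV⟩ := (krullTopology_mem_nhds_one_iff F (AlgebraicClosure F) _).mp hpre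
    have hEo : IsOpen (E.fixingSubgroup : Set (Gal F)) := E.fixingSubgroup_isOpen
    set H' : Subgroup (Gal F) := H ⊓ E.fixingSubgroup with hH'
    have hH'o : IsOpen (H' : Set (Gal F)) := hH.inter hEo
    obtain ⟨hi, hc⟩ := hM H' hH'o
    refine den ℚ_[l] K n {A | ∃ g ∈ H', A = mat (M.ρ l) g} ?_ ?_ U ?_
    · intro W hW
      refine irr_stable hi W ?_
      intro g v hv
      exact hW _ ⟨g, g.2, rfl⟩ v hv
    · intro Y hY
      exact hc Y fun g hg => hY _ ⟨g, hg, rfl⟩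
    · rintro _ ⟨g, hg, rfl⟩ v hv
      obtain ⟨z, hz1, hz2⟩ := hVz (M.ρ l g) (hEV hg.2)
      have hz3 := hz2 (H.map (M.ρ l)) (Subgroup.mem_map_of_mem _ hg.1)
      exact stable_adjoin hz1 U (hU z hz3) v hv
  · obtain ⟨C, _, _, _, P, hP⟩ := M.sen_span l
    haveI : CharZero C := charZero_of_injective_algebraMap (algebraMap ℚ_[l] C).injective
    obtain ⟨H₁, hle, hnor, hopen, -⟩ := exists_core H hH
    set a := LieZ (H₁.map (M.ρ l)) with ha
    obtain ⟨zbr, znor, -, zsim, -⟩ := zar ℚ_[l] n (H₁.map (M.ρ l))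
    have hdet := bas_det ℚ_[l] M.ψ M.ψ_det
    have hn : 1 ≤ n := by
      obtain ⟨j, -⟩ := Finset.card_eq_one.mp hmid
      exact Nat.one_le_iff_ne_zero.mpr (fun h0 => by subst h0; exact j.elim0)
    have hev : Even w := by
      obtain ⟨j0, hj0⟩ := Finset.card_eq_one.mp hmid
      have h1 : j0 ∈ (Finset.univ.filter fun j => 2 * h j = w) := by
        rw [hj0]; exact Finset.mem_singleton_self _
      have h2 := (Finset.mem_filter.mp h1).2
      exact ⟨h j0, by omega⟩
    have hsym : (bas ℚ_[l] M.ψ).transpose = bas ℚ_[l] M.ψ := by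
      rcases bas_sym' ℚ_[l] M.ψ w M.ψ_sym with ⟨h2, -⟩ | ⟨-, h2⟩
      · exact absurd hev (Nat.not_even_iff_odd.mpr h2)
      · exact h2
    have hsim : ∀ A ∈ a, ∃ c : ℚ_[l], A.transpose * bas ℚ_[l] M.ψ + bas ℚ_[l] M.ψ * A =
        c • bas ℚ_[l] M.ψ := by
      apply zsim _ hdet
      rintro _ ⟨g, -, rfl⟩
      exact ⟨_, M.gal_sim l g⟩
    obtain ⟨e, he0, he1, he2, he3⟩ := mid_facts hmid P _ rfl
    have hΘ := theta_sim hn (bas ℚ_[l] M.ψ) hdet a hsim P _ rfl (hP H₁ hopen) (hsm F S n w h M)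
    have hirrG : ∀ W : Submodule ℚ_[l] (Fin n → ℚ_[l]), (∀ g ∈ (M.ρ l).range, ∀ v ∈ W,
        (g : Matrix (Fin n) (Fin n) ℚ_[l]).mulVec v ∈ W) → W = ⊥ ∨ W = ⊤ := by
      intro W hW
      refine irr_stable hirr W ?_
      intro g v hv
      exact hW _ ⟨g, rfl⟩ v hv
    have hLI : LIrr a := by
      refine oi1 ℚ_[l] C n (bas ℚ_[l] M.ψ) (M.ρ l).range a _ ((w : C) / 2) e hdet hsym hsim ?_ ?_
        hirrG (hP H₁ hopen) hΘ he0 he1 he2 he3
      · rintro _ ⟨g, rfl⟩
        exact ⟨_, M.gal_sim l g⟩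
      · rintro _ ⟨g, rfl⟩ A hA
        refine znor (M.ρ l g) ?_ A hA
        rintro _ ⟨s, hs, rfl⟩
        refine ⟨g * s * g⁻¹, hnor.conj_mem s hs g, ?_⟩
        rw [map_mul, map_mul, map_inv]
    have hcm := oi2 ℚ_[l] C n (bas ℚ_[l] M.ψ) a _ ((w : C) / 2) e hdet hsym hsim hLI
      (hP H₁ hopen) hΘ he0 he1 he2 he3
    refine den ℚ_[l] K n (a : Set (Matrix (Fin n) (Fin n) ℚ_[l])) hLI hcm U ?_
    intro A hA
    exact hU A (LieZ_mono (Subgroup.map_mono hle) hA)

end MT
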