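import Pool.Agent.Helper21.MT9.Stmts
import Pool.Agent.Helper37.Lin.ALG1

/-!
# KIR: the elements of degree zero which vanish on the inner part
-/

set_option autoImplicit false

open NumberField MU

namespace MT

namespace Kir

variable {K : Type} [Field K] {n m : ℕ}

/-- restriction to a block -/
def kblk (f : Fin m → Fin n) : Matrix (Fin n) (Fin n) K →ₗ[K] Matrix (Fin m) (Fin m) K where
  toFun A := A.submatrix f f
  map_add' _ _ := rfl
  map_smul' _ _ := rfl

theorem kblk_apply (f : Fin m → Fin n) (A : Matrix (Fin n) (Fin n) K) (i j : Fin m) :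
    kblk f A i j = A (f i) (f j) := rfl

theorem cmp_zero_iff (d : Fin n → ℤ) (A : Matrix (Fin n) (Fin n) K) :
    cmp d 0 A = A ↔ ∀ i j, d i ≠ d j → A i j = 0 := by
  constructor
  · intro h i j hij
    rw [← h]
    show (if d i - d j = 0 then A i j else 0) = 0
    rw [if_neg]
    intro h1
    exact hij (sub_eq_zero.mp h1)
  · intro h
    ext i j
    show (if d i - d j = 0 then A i j else 0) = A i j
    split_ifs with h1
    · rfl
    · exact (h i j (fun h2 => h1 (sub_eq_zero.mpr h2))).symm

theorem cmp_zero_mul {d : Fin n → ℤ} {A B : Matrix (Fin n) (Fin n) K} (hA : cmp d 0 A = A)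
    (hB : cmp d 0 B = B) : cmp d 0 (A * B) = A * B := by
  rw [cmp_zero_iff] at hA hB ⊢
  intro i j hij
  rw [Matrix.mul_apply]
  refine Finset.sum_eq_zero fun k _ => ?_
  by_cases h : d i = d k
  · rw [hB k j (fun h2 => hij (h.trans h2)), mul_zero]
  · rw [hA i k h, zero_mul]

theorem cmp_zero_sub {d : Fin n → ℤ} {A B : Matrix (Fin n) (Fin n) K} (hA : cmp d 0 A = A)
    (hB : cmp d 0 B = B) : cmp d 0 (A - B) = A - B := by
  rw [cmp_zero_iff] at hA hB ⊢
  intro i j hij
  rw [Matrix.sub_apply, hA i j hij, hB i j hij, sub_zero]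

/-- the block is multiplicative on matrices of degree zero -/
theorem kblk_mul {f : Fin m → Fin n} {d : Fin n → ℤ} {N : ℤ} (hf : Function.Injective f)
    (hfd : ∀ i, d (f i) = N) (hfs : ∀ j, d j = N → ∃ i, f i = j)
    {A B : Matrix (Fin n) (Fin n) K} (hA : cmp d 0 A = A) :
    kblk f (A * B) = kblk f A * kblk f B := by
  classical
  rw [cmp_zero_iff] at hA
  ext i j
  rw [kblk_apply, Matrix.mul_apply, Matrix.mul_apply]
  symm
  refine Finset.sum_of_injOn f (fun _ _ _ _ h => hf h) (fun _ _ => Finset.mem_coe.mpr (Finset.mem_univ _)) ?_ ?_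
  · intro k _ hk
    rw [hA (f i) k, zero_mul]
    intro h
    apply hk
    obtain ⟨k', hk'⟩ := hfs k (h.symm.trans (hfd i))
    exact ⟨k', Finset.mem_coe.mpr (Finset.mem_univ _), hk'⟩
  · intro k _
    rfl

/-- extension by zero of a vector -/
noncomputable def extv (f : Fin m → Fin n) (u : Fin m → K) : Fin n → K :=
  fun j => if h : ∃ i, f i = j then u h.choose else 0

theorem extv_apply {f : Fin m → Fin n} (hf : Function.Injective f) (u : Fin m → K) (i : Fin m) :
    extv f u (f i) = u i := by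
  have h : ∃ i', f i' = f i := ⟨i, rfl⟩
  unfold extv
  rw [dif_pos h]
  exact congrArg u (hf h.choose_spec)

theorem extv_zero {f : Fin m → Fin n} (u : Fin m → K) (j : Fin n) (h : ¬ ∃ i, f i = j) :
    extv f u j = 0 := by
  unfold extv
  rw [dif_neg h]

/-- extension by zero of a matrix -/
noncomputable def extm (f : Fin m → Fin n) (X : Matrix (Fin m) (Fin m) K) : Matrix (Fin n) (Fin n) K :=
  Matrix.of fun i j => if h : (∃ i', f i' = i) ∧ ∃ j', f j' = j then
    X h.1.choose h.2.choose else 0

theorem extm_apply {f : Fin m → Fin n} (hf : Function.Injective f) (X : Matrix (Fin m) (Fin m) K)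
    (i j : Fin m) : extm f X (f i) (f j) = X i j := by
  have h : (∃ i', f i' = f i) ∧ ∃ j', f j' = f j := ⟨⟨i, rfl⟩, ⟨j, rfl⟩⟩
  unfold extm
  rw [Matrix.of_apply, dif_pos h]
  rw [hf h.1.choose_spec, hf h.2.choose_spec]

theorem extm_zero {f : Fin m → Fin n} (X : Matrix (Fin m) (Fin m) K)
    (i j : Fin n) (h : ¬ ((∃ i', f i' = i) ∧ ∃ j', f j' = j)) : extm f X i j = 0 := by
  unfold extm
  rw [Matrix.of_apply, dif_neg h]

theorem extm_eq {f : Fin m → Fin n} (hf : Function.Injective f) (A : Matrix (Fin n) (Fin n) K)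
    (hA : ∀ i j, A i j ≠ 0 → (∃ i', f i' = i) ∧ ∃ j', f j' = j) : extm f (kblk f A) = A := by
  ext i j
  by_cases h : (∃ i', f i' = i) ∧ ∃ j', f j' = j
  · obtain ⟨⟨i', rfl⟩, ⟨j', rfl⟩⟩ := h
    rw [extm_apply hf, kblk_apply]
  · rw [extm_zero _ _ _ h]
    by_contra h1
    exact h (hA i j (fun h2 => h1 h2.symm))

theorem extm_add {f : Fin m → Fin n} (X Y : Matrix (Fin m) (Fin m) K) :
    extm f (X + Y) = extm f X + extm f Y := by
  ext i j
  unfold extm
  rw [Matrix.add_apply, Matrix.of_apply, Matrix.of_apply, Matrix.of_apply]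
  split_ifs with h
  · rfl
  · rw [add_zero]

theorem extm_smul {f : Fin m → Fin n} (c : K) (X : Matrix (Fin m) (Fin m) K) :
    extm f (c • X) = c • extm f X := by
  ext i j
  unfold extm
  rw [Matrix.smul_apply, Matrix.of_apply, Matrix.of_apply]
  split_ifs with h
  · rfl
  · rw [smul_zero]

theorem extm_mul {f : Fin m → Fin n} (hf : Function.Injective f)
    (X Y : Matrix (Fin m) (Fin m) K) : extm f (X * Y) = extm f X * extm f Y := by
  classical
  ext i j
  by_cases h : (∃ i', f i' = i) ∧ ∃ j', f j' = j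
  · obtain ⟨⟨i', rfl⟩, ⟨j', rfl⟩⟩ := h
    rw [extm_apply hf, Matrix.mul_apply, Matrix.mul_apply]
    refine Finset.sum_of_injOn f (fun _ _ _ _ h => hf h)
      (fun _ _ => Finset.mem_coe.mpr (Finset.mem_univ _)) ?_ ?_
    · intro k _ hk
      rw [extm_zero, zero_mul]
      rintro ⟨-, k', hk'⟩
      exact hk ⟨k', Finset.mem_coe.mpr (Finset.mem_univ _), hk'⟩
    · intro k _
      rw [extm_apply hf, extm_apply hf]
  · rw [extm_zero _ _ _ h, Matrix.mul_apply]
    symm
    refine Finset.sum_eq_zero fun k _ => ?_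
    by_cases h1 : ∃ i', f i' = i
    · rw [extm_zero Y, mul_zero]
      rintro ⟨-, h2⟩
      exact h ⟨h1, h2⟩
    · rw [extm_zero X, zero_mul]
      rintro ⟨h2, -⟩
      exact h1 h2

/-- Burnside's theorem for non-unital algebras of matrices -/
theorem burnside [IsAlgClosed K] (hm : 2 ≤ m) (k : Set (Matrix (Fin m) (Fin m) K))
    (hirr : ∀ U : Submodule K (Fin m → K), (∀ A ∈ k, ∀ v ∈ U, A.mulVec v ∈ U) → U = ⊥ ∨ U = ⊤)
    (P : Matrix (Fin m) (Fin m) K → Prop) (h0 : P 0) (hadd : ∀ A B, P A → P B → P (A + B))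
    (hsmul : ∀ (c : K) A, P A → P (c • A)) (hmul : ∀ A B, P A → P B → P (A * B))
    (hk : ∀ A ∈ k, P A) (X : Matrix (Fin m) (Fin m) K) : P X := by
  classical
  let e : Matrix (Fin m) (Fin m) K ≃ₐ[K] Module.End K (Fin m → K) := Matrix.toLinAlgEquiv'
  -- the subalgebra `K + P`
  let 𝒜 : Subalgebra K (Matrix (Fin m) (Fin m) K) :=
    { carrier := {Y | ∃ (c : K) (Z : Matrix (Fin m) (Fin m) K), P Z ∧ Y = c • 1 + Z}
      mul_mem' := by
        rintro _ _ ⟨c, Z, hZ, rfl⟩ ⟨c', Z', hZ', rfl⟩
        refine ⟨c * c', c • Z' + (c' • Z + Z * Z'), hadd _ _ (hsmul _ _ hZ')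
          (hadd _ _ (hsmul _ _ hZ) (hmul _ _ hZ hZ')), ?_⟩
        rw [add_mul, mul_add, mul_add, smul_mul_smul_comm, one_mul, smul_mul_assoc, one_mul,
          mul_smul_comm, mul_one]
        abel
      add_mem' := by
        rintro _ _ ⟨c, Z, hZ, rfl⟩ ⟨c', Z', hZ', rfl⟩
        refine ⟨c + c', Z + Z', hadd _ _ hZ hZ', ?_⟩
        rw [add_smul]
        abel
      algebraMap_mem' := by
        intro c
        refine ⟨c, 0, h0, ?_⟩
        rw [add_zero, Algebra.algebraMap_eq_smul_one] }
  have hkA : ∀ A ∈ k, A ∈ 𝒜 := by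
    intro A hA
    exact ⟨0, A, hk A hA, by rw [zero_smul, zero_add]⟩
  haveI : Nontrivial (Fin m → K) := by
    haveI : Nonempty (Fin m) := ⟨⟨0, by omega⟩⟩
    infer_instance
  have htop : 𝒜.map (e : Matrix (Fin m) (Fin m) K →ₐ[K] Module.End K (Fin m → K)) = ⊤ := by
    apply Pool.Agent.Helper37.Lin.alg1_burnside
    intro U hU
    refine hirr U ?_
    intro A hA v hv
    have h1 := hU (e A) ⟨A, hkA A hA, rfl⟩ v hv
    exact h1
  have hall : ∀ Y : Matrix (Fin m) (Fin m) K, ∃ (c : K) (Z : Matrix (Fin m) (Fin m) K),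
      P Z ∧ Y = c • 1 + Z := by
    intro Y
    have h1 : e Y ∈ 𝒜.map (e : Matrix (Fin m) (Fin m) K →ₐ[K] Module.End K (Fin m → K)) := by
      rw [htop]; trivial
    obtain ⟨Y', hY', h2⟩ := h1
    have h3 : Y' = Y := e.injective h2
    rw [← h3]
    exact hY'
  have hL : ∀ Y Z, P Z → P (Y * Z) := by
    intro Y Z hZ
    obtain ⟨c, Z', hZ', rfl⟩ := hall Y
    rw [add_mul, smul_mul_assoc, one_mul]
    exact hadd _ _ (hsmul _ _ hZ) (hmul _ _ hZ' hZ)
  have hR : ∀ Y Z, P Z → P (Z * Y) := by
    intro Y Z hZ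
    obtain ⟨c, Z', hZ', rfl⟩ := hall Y
    rw [mul_add, mul_smul_comm, mul_one]
    exact hadd _ _ (hsmul _ _ hZ) (hmul _ _ hZ hZ')
  -- a nonzero element
  let i0 : Fin m := ⟨0, by omega⟩
  let i1 : Fin m := ⟨1, by omega⟩
  have h01 : i0 ≠ i1 := by
    intro h
    have := congrArg Fin.val h
    simp [i0, i1] at this
  obtain ⟨c, Z, hZ, hcZ⟩ := hall (Matrix.single i0 i1 1)
  have hZ1 : Z i0 i1 = 1 := by
    have h1 := congrFun (congrFun hcZ i0) i1
    rw [Matrix.single_apply_same, Matrix.add_apply, Matrix.smul_apply, Matrix.one_apply_ne h01,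
      smul_zero, zero_add] at h1
    exact h1.symm
  have hs : ∀ i j, P (Matrix.single i j 1) := by
    intro i j
    have h1 : (Matrix.single i i0 1 : Matrix (Fin m) (Fin m) K) * Z * Matrix.single i1 j 1 =
        Matrix.single i j 1 := by
      ext a b
      rw [Matrix.mul_apply, Finset.sum_eq_single i1]
      · rw [Matrix.mul_apply, Finset.sum_eq_single i0]
        · rw [hZ1, mul_one]
          by_cases ha : i = a
          · subst ha
            rw [Matrix.single_apply_same, one_mul]
            by_cases hb : j = b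
            · subst hb
              rw [Matrix.single_apply_same, Matrix.single_apply_same]
            · rw [Matrix.single_apply_of_ne _ _ _ _ _ (by tauto), Matrix.single_apply_of_ne _ _ _ _ _ (by tauto)]
          · rw [Matrix.single_apply_of_ne _ _ _ _ _ (by tauto), zero_mul, Matrix.single_apply_of_ne _ _ _ _ _ (by tauto)]
        · intro k _ hk
          rw [Matrix.single_apply_of_ne _ _ _ _ _ (by tauto), zero_mul]
        · intro h
          exact absurd (Finset.mem_univ _) h
      · intro k _ hk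
        rw [Matrix.single_apply_of_ne _ _ _ _ _ (by tauto), mul_zero]
      · intro h
        exact absurd (Finset.mem_univ _) h
    rw [← h1]
    exact hR _ _ (hL _ _ hZ)
  have hsum : ∀ (ι : Type) (s : Finset ι) (g : ι → Matrix (Fin m) (Fin m) K),
      (∀ i ∈ s, P (g i)) → P (∑ i ∈ s, g i) := by
    intro ι s g hg
    induction s using Finset.induction_on with
    | empty => rw [Finset.sum_empty]; exact h0
    | insert i s hi ih =>
      rw [Finset.sum_insert hi]
      exact hadd _ _ (hg i (Finset.mem_insert_self _ _))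
        (ih fun j hj => hg j (Finset.mem_insert_of_mem hj))
  rw [Matrix.matrix_eq_sum_single X]
  refine hsum _ _ _ fun i _ => hsum _ _ _ fun j _ => ?_
  have h2 : (Matrix.single i j (X i j) : Matrix (Fin m) (Fin m) K) =
      (X i j) • Matrix.single i j 1 := by
    rw [Matrix.smul_single, smul_eq_mul, mul_one]
  rw [h2]
  exact hsmul _ _ (hs i j)

end Kir

open Kir

/-- KIR -/
theorem st_KIR (red : ST_RED) (tpi : ST_TPI) (abe : ST_ABE) : ST_KIR := by
  classical
  intro K _ _ _ n ε ψ d N a hD P hadd hsmul hmul hk T hT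
  set s : Finset (Fin n) := Finset.univ.filter fun j => d j = N with hs
  set m := s.card with hm
  have hm2 : 2 ≤ m := hD.top
  let f : Fin m → Fin n := fun i => s.orderEmbOfFin rfl i
  have hf : Function.Injective f := (s.orderEmbOfFin rfl).injective
  have hfd : ∀ i, d (f i) = N := by
    intro i
    have h1 : f i ∈ s := Finset.orderEmbOfFin_mem s rfl i
    rw [hs, Finset.mem_filter] at h1
    exact h1.2
  have hfs : ∀ j, d j = N → ∃ i, f i = j := by
    intro j hj
    have h1 : j ∈ s := by rw [hs, Finset.mem_filter]; exact ⟨Finset.mem_univ _, hj⟩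
    have h2 : j ∈ Set.range (s.orderEmbOfFin rfl) := by
      rw [Finset.range_orderEmbOfFin]; exact h1
    obtain ⟨i, hi⟩ := h2
    exact ⟨i, hi⟩
  have hfr : ∀ j, (∃ i, f i = j) ↔ d j = N := by
    intro j
    constructor
    · rintro ⟨i, rfl⟩
      exact hfd i
    · exact hfs j
  -- the elements of degree zero
  let a0 : Submodule K (Matrix (Fin n) (Fin n) K) :=
    { carrier := {A | A ∈ a ∧ cmp d 0 A = A}
      add_mem' := by
        rintro A B ⟨hA, hA'⟩ ⟨hB, hB'⟩
        refine ⟨a.add_mem hA hB, ?_⟩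
        rw [cmp_zero_iff] at hA' hB' ⊢
        intro i j hij
        rw [Matrix.add_apply, hA' i j hij, hB' i j hij, add_zero]
      zero_mem' := by
        refine ⟨a.zero_mem, ?_⟩
        rw [cmp_zero_iff]
        intro i j _
        rfl
      smul_mem' := by
        rintro c A ⟨hA, hA'⟩
        refine ⟨a.smul_mem c hA, ?_⟩
        rw [cmp_zero_iff] at hA' ⊢
        intro i j hij
        rw [Matrix.smul_apply, hA' i j hij, smul_zero] }
  let k0 : Submodule K (Matrix (Fin n) (Fin n) K) :=
    { carrier := {A | A ∈ a0 ∧ ∀ i j, |d i| < N → A i j = 0}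
      add_mem' := by
        rintro A B ⟨hA, hA'⟩ ⟨hB, hB'⟩
        refine ⟨a0.add_mem hA hB, ?_⟩
        intro i j hij
        rw [Matrix.add_apply, hA' i j hij, hB' i j hij, add_zero]
      zero_mem' := ⟨a0.zero_mem, fun _ _ _ => rfl⟩
      smul_mem' := by
        rintro c A ⟨hA, hA'⟩
        refine ⟨a0.smul_mem c hA, ?_⟩
        intro i j hij
        rw [Matrix.smul_apply, hA' i j hij, smul_zero] }
  have hbr0 : ∀ A ∈ a0, ∀ B ∈ a0, A * B - B * A ∈ k0 := by
    rintro A ⟨hA, hA'⟩ B ⟨hB, hB'⟩
    exact ⟨⟨hD.brk A hA B hB, cmp_zero_sub (cmp_zero_mul hA' hB') (cmp_zero_mul hB' hA')⟩,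
      abe K n ε ψ d N a hD A hA B hB hA' hB'⟩
  have hblk : ∀ A ∈ a0, ∀ B, kblk f (A * B) = kblk f A * kblk f B :=
    fun A hA B => kblk_mul hf hfd hfs hA.2
  -- irreducibility of the block of `a0`
  have hirr : LIrr (a0.map (kblk f)) := by
    intro U hU
    let U' : Submodule K (Fin n → K) :=
      { carrier := {v | (∀ j, v j ≠ 0 → d j = N) ∧ (fun i => v (f i)) ∈ U}
        add_mem' := by
          rintro v v' ⟨h1, h2⟩ ⟨h3, h4⟩
          refine ⟨?_, U.add_mem h2 h4⟩
          intro j hj
          by_contra h5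
          apply hj
          rw [Pi.add_apply]
          have e1 : v j = 0 := by
            by_contra h6; exact h5 (h1 j h6)
          have e2 : v' j = 0 := by
            by_contra h6; exact h5 (h3 j h6)
          rw [e1, e2, add_zero]
        zero_mem' := ⟨fun j hj => absurd rfl hj, U.zero_mem⟩
        smul_mem' := by
          rintro c v ⟨h1, h2⟩
          refine ⟨?_, U.smul_mem c h2⟩
          intro j hj
          apply h1 j
          intro h3
          apply hj
          rw [Pi.smul_apply, h3, smul_zero] }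
    have hmv : ∀ A ∈ a0, ∀ v : Fin n → K, (∀ j, v j ≠ 0 → d j = N) →
        (fun i => (A.mulVec v) (f i)) = (kblk f A).mulVec (fun i => v (f i)) := by
      rintro A ⟨-, hA'⟩ v hv
      ext i
      show (A.mulVec v) (f i) = (kblk f A).mulVec (fun i => v (f i)) i
      unfold Matrix.mulVec dotProduct
      symm
      refine Finset.sum_of_injOn f (fun _ _ _ _ h => hf h)
        (fun _ _ => Finset.mem_coe.mpr (Finset.mem_univ _)) ?_ (fun _ _ => rfl)
      intro k _ hk
      have : v k = 0 := by
        by_contra h1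
        obtain ⟨k', hk'⟩ := hfs k (hv k h1)
        exact hk ⟨k', Finset.mem_coe.mpr (Finset.mem_univ _), hk'⟩
      rw [this, mul_zero]
    have h1 := tpi K n a d N hD.brk hD.irr hD.comp (fun j => (abs_le.mp (hD.bd j)).2) U'
      (fun v hv => hv.1) ?_
    · rcases h1 with h1 | h1
      · left
        rw [Submodule.eq_bot_iff]
        intro u hu
        have h2 : extv f u ∈ U' := by
          refine ⟨?_, ?_⟩
          · intro j hj
            rw [← hfr]
            by_contra h3
            exact hj (extv_zero u j h3)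
          · have h4 : (fun i => extv f u (f i)) = u := funext fun i => extv_apply hf u i
            rw [h4]
            exact hu
        rw [h1, Submodule.mem_bot] at h2
        ext i
        have h3 := congrFun h2 (f i)
        rw [extv_apply hf] at h3
        exact h3
      · right
        rw [Submodule.eq_top_iff']
        intro u
        have h2 := h1 (extv f u) (fun j hj => by
          rw [← hfr]
          by_contra h3
          exact hj (extv_zero u j h3))
        have h4 : (fun i => extv f u (f i)) = u := funext fun i => extv_apply hf u i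
        have h3 := h2.2
        rw [h4] at h3
        exact h3
    · intro A hA hA' v hv
      have hA0 : A ∈ a0 := ⟨hA, hA'⟩
      refine ⟨?_, ?_⟩
      · intro j hj
        by_contra h2
        apply hj
        unfold Matrix.mulVec dotProduct
        refine Finset.sum_eq_zero fun k _ => ?_
        by_cases h3 : v k = 0
        · rw [h3, mul_zero]
        · have h4 := hv.1 k h3
          have h6 := (cmp_zero_iff d A).mp hA' j k (fun h5 => h2 (h5.trans h4))
          show A j k * v k = 0
          rw [h6, zero_mul]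
      · show (fun i => (A.mulVec v) (f i)) ∈ U
        rw [hmv A hA0 v hv.1]
        exact hU _ (Submodule.mem_map_of_mem hA0) _ hv.2
  have hbrk : Brk (a0.map (kblk f)) := by
    rintro _ ⟨A, hA, rfl⟩ _ ⟨B, hB, rfl⟩
    refine ⟨A * B - B * A, (hbr0 A hA B hB).1, ?_⟩
    rw [map_sub, hblk A hA, hblk B hB]
  have hred := red K m (a0.map (kblk f)) hbrk hirr
  have hspan : Submodule.span K {X | ∃ B ∈ a0.map (kblk f), ∃ C ∈ a0.map (kblk f),
      X = B * C - C * B} ≤ k0.map (kblk f) := by
    rw [Submodule.span_le]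
    rintro _ ⟨_, ⟨A, hA, rfl⟩, _, ⟨B, hB, rfl⟩, rfl⟩
    refine ⟨A * B - B * A, hbr0 A hA B hB, ?_⟩
    rw [map_sub, hblk A hA, hblk B hB]
  have hmK : (m : K) ≠ 0 := by
    rw [Nat.cast_ne_zero]
    omega
  have hirrk : ∀ U : Submodule K (Fin m → K), (∀ A ∈ (k0.map (kblk f) : Set (Matrix (Fin m) (Fin m) K)),
      ∀ v ∈ U, A.mulVec v ∈ U) → U = ⊥ ∨ U = ⊤ := by
    intro U hU
    refine hirr U ?_
    intro A hA v hv
    have h1 := hred A hA (A.trace / m) (by
      rw [Matrix.trace_sub, Matrix.trace_smul, Matrix.trace_one, Fintype.card_fin, smul_eq_mul,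
        div_mul_cancel₀ _ hmK, sub_self])
    have h2 := hU _ (hspan h1) v hv
    rw [Matrix.sub_mulVec, Matrix.smul_mulVec, Matrix.one_mulVec] at h2
    have h3 := U.add_mem h2 (U.smul_mem (A.trace / m) hv)
    rwa [sub_add_cancel] at h3
  have hκ : ∀ κ ∈ k0, P (extm f (kblk f κ)) := by
    intro κ hκ
    have h1 := hk κ hκ.1.1 hκ.1.2 hκ.2
    have h2 : extm f (kblk f κ) = Matrix.of fun i j => if d i = N then κ i j else 0 := by
      ext i j
      rw [Matrix.of_apply]
      by_cases hi : d i = N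
      · rw [if_pos hi]
        by_cases hj : d j = N
        · obtain ⟨i', rfl⟩ := hfs i hi
          obtain ⟨j', rfl⟩ := hfs j hj
          rw [extm_apply hf, kblk_apply]
        · rw [extm_zero _ _ _ (by rw [hfr, hfr]; tauto),
            (cmp_zero_iff d κ).mp hκ.1.2 i j (fun h => hj (h.symm.trans hi))]
      · rw [if_neg hi, extm_zero _ _ _ (by rw [hfr, hfr]; tauto)]
    rw [h2]
    exact h1
  have h0 : P (extm f (0 : Matrix (Fin m) (Fin m) K)) := by
    have h1 := hκ 0 k0.zero_mem
    rw [map_zero] at h1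
    exact h1
  have hfin := burnside hm2 (k0.map (kblk f) : Set (Matrix (Fin m) (Fin m) K)) hirrk
    (fun X => P (extm f X)) h0
    (fun A B hA hB => by rw [extm_add]; exact hadd _ _ hA hB)
    (fun c A hA => by rw [extm_smul]; exact hsmul _ _ hA)
    (fun A B hA hB => by rw [extm_mul hf]; exact hmul _ _ hA hB)
    (by rintro _ ⟨κ, hκ', rfl⟩; exact hκ κ hκ') (kblk f T)
  rw [extm_eq hf T] at hfin
  · exact hfin
  · intro i j hij
    rw [hfr, hfr]
    exact hT i j hij

end MT
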