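import Pool.Agent.Helper21.MT9.Defs
import Pool.Agent.Helper21.MT7.Stmts
import Pool.Agent.Helper6.HD.Defs

/-!
# Small inner Hodge numbers: exact statements of the modules (T9)
Proofs: /team-store/mt9_helper21.md
-/

set_option autoImplicit false

open NumberField MU

namespace MT

/-! ## A. Lie algebras of matrices -/

section defs

variable {K : Type} [Field K] {n : ℕ}

/-- Lie algebras of matrices -/
def Brk (a : Submodule K (Matrix (Fin n) (Fin n) K)) : Prop :=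
  ∀ A ∈ a, ∀ B ∈ a, A * B - B * A ∈ a

/-- irreducible spaces of matrices -/
def LIrr (a : Submodule K (Matrix (Fin n) (Fin n) K)) : Prop :=
  ∀ U : Submodule K (Fin n → K), (∀ A ∈ a, ∀ v ∈ U, A.mulVec v ∈ U) → U = ⊥ ∨ U = ⊤

/-- the component of degree `x` of a matrix, for the degrees `d i - d j` of the entries -/
def cmp (d : Fin n → ℤ) (x : ℤ) (A : Matrix (Fin n) (Fin n) K) : Matrix (Fin n) (Fin n) K :=
  Matrix.of fun i j => if d i - d j = x then A i j else 0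

/-- the inner part of a vector -/
def inn (d : Fin n → ℤ) (N : ℤ) (v : Fin n → K) : Fin n → K :=
  fun j => if |d j| < N then v j else 0

/-- `v ↦ ψ(v, y) x - ε ψ(v, x) y` -/
def LL (ψ : Matrix (Fin n) (Fin n) K) (ε : K) (x y : Fin n → K) : Matrix (Fin n) (Fin n) K :=
  Matrix.vecMulVec x (ψ.mulVec y) - ε • Matrix.vecMulVec y (ψ.mulVec x)

/-- the data of the Lie theorem, in a basis of eigenvectors of the grading element -/
structure TopD (ε : K) (ψ : Matrix (Fin n) (Fin n) K) (d : Fin n → ℤ) (N : ℤ)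
    (a : Submodule K (Matrix (Fin n) (Fin n) K)) : Prop where
  unit : ψ.det ≠ 0
  symm : ψ.transpose = ε • ψ
  sign : ε = 1 ∨ ε = -1
  grad : ∀ i j, ψ i j ≠ 0 → d i + d j = 0
  brk : Brk a
  iso : ∀ A ∈ a, A.transpose * ψ + ψ * A = 0
  irr : LIrr a
  comp : ∀ A ∈ a, ∀ x : ℤ, cmp d x A ∈ a
  pos : 0 < N
  bd : ∀ j, |d j| ≤ N
  top : 2 ≤ (Finset.univ.filter fun j => d j = N).card
  inner : ∃ j, |d j| < N
  thin : ∀ x : ℤ, |x| < N → x ≠ 0 → (Finset.univ.filter fun j => d j = x).card ≤ 1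
  mid : (Finset.univ.filter fun j => d j = 0).card ≤ 2
  mid' : ε = -1 → ∀ j, d j ≠ 0

end defs

/-- RED: irreducible Lie algebras are reductive (Mathlib: Cartan's criterion). -/
def ST_RED : Prop :=
  ∀ (K : Type) [Field K] [CharZero K] [IsAlgClosed K] (n : ℕ)
    (a : Submodule K (Matrix (Fin n) (Fin n) K)), Brk a → LIrr a → ∀ A ∈ a, ∀ c : K,
      (A - c • (1 : Matrix (Fin n) (Fin n) K)).trace = 0 →
        A - c • (1 : Matrix (Fin n) (Fin n) K) ∈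
          Submodule.span K {X | ∃ B ∈ a, ∃ C ∈ a, X = B * C - C * B}

/-- DEN: density (adapt helper35's `abs_dens` and `st_ABS`). -/
def ST_DEN : Prop :=
  ∀ (K K' : Type) [Field K] [Field K'] [Algebra K K'] (n : ℕ)
    (X : Set (Matrix (Fin n) (Fin n) K)),
    (∀ U : Submodule K (Fin n → K), (∀ A ∈ X, ∀ v ∈ U, A.mulVec v ∈ U) → U = ⊥ ∨ U = ⊤) →
    (∀ Y : Matrix (Fin n) (Fin n) K, (∀ A ∈ X, A * Y = Y * A) → ∃ c : K, Y = c • 1) →
    ∀ U : Submodule K' (Fin n → K'),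
      (∀ A ∈ X, ∀ v ∈ U, (A.map (algebraMap K K')).mulVec v ∈ U) → U = ⊥ ∨ U = ⊤

/-- GRA: the homogeneous components of the elements of a graded space of matrices. -/
def ST_GRA : Prop :=
  ∀ (K : Type) [Field K] [CharZero K] (n : ℕ) (a : Submodule K (Matrix (Fin n) (Fin n) K))
    (d : Fin n → ℤ),
    (∀ A ∈ a, Matrix.diagonal (fun j => (d j : K)) * A -
      A * Matrix.diagonal (fun j => (d j : K)) ∈ a) →
    ∀ A ∈ a, ∀ x : ℤ, cmp d x A ∈ a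

/-- TPI: the top piece of an irreducible graded representation is irreducible. -/
def ST_TPI : Prop :=
  ∀ (K : Type) [Field K] (n : ℕ) (a : Submodule K (Matrix (Fin n) (Fin n) K))
    (d : Fin n → ℤ) (N : ℤ), Brk a → LIrr a → (∀ A ∈ a, ∀ x : ℤ, cmp d x A ∈ a) →
    (∀ j, d j ≤ N) →
    ∀ U : Submodule K (Fin n → K), (∀ v ∈ U, ∀ j, v j ≠ 0 → d j = N) →
      (∀ A ∈ a, cmp d 0 A = A → ∀ v ∈ U, A.mulVec v ∈ U) →
      U = ⊥ ∨ ∀ v : Fin n → K, (∀ j, v j ≠ 0 → d j = N) → v ∈ U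

/-- ABE: the inner part of the degree zero component is abelian. -/
def ST_ABE : Prop :=
  ∀ (K : Type) [Field K] [CharZero K] (n : ℕ) (ε : K) (ψ : Matrix (Fin n) (Fin n) K)
    (d : Fin n → ℤ) (N : ℤ) (a : Submodule K (Matrix (Fin n) (Fin n) K)), TopD ε ψ d N a →
    ∀ A ∈ a, ∀ B ∈ a, cmp d 0 A = A → cmp d 0 B = B →
      ∀ i j, |d i| < N → (A * B - B * A) i j = 0

/-- KIR: the elements of degree zero which vanish on the inner part generate all endomorphisms of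
the top piece (from RED, TPI, ABE and Burnside's theorem). -/
def ST_KIR : Prop :=
  ∀ (K : Type) [Field K] [CharZero K] [IsAlgClosed K] (n : ℕ) (ε : K)
    (ψ : Matrix (Fin n) (Fin n) K) (d : Fin n → ℤ) (N : ℤ)
    (a : Submodule K (Matrix (Fin n) (Fin n) K)), TopD ε ψ d N a →
    ∀ P : Matrix (Fin n) (Fin n) K → Prop,
      (∀ A B, P A → P B → P (A + B)) → (∀ (c : K) A, P A → P (c • A)) →
      (∀ A B, P A → P B → P (A * B)) →
      (∀ κ ∈ a, cmp d 0 κ = κ → (∀ i j, |d i| < N → κ i j = 0) →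
        P (Matrix.of fun i j => if d i = N then κ i j else 0)) →
      ∀ T : Matrix (Fin n) (Fin n) K, (∀ i j, T i j ≠ 0 → d i = N ∧ d j = N) → P T

/-- CMP: the components in `Q₊ ⊗ R` (from KIR). -/
def ST_CMP : Prop :=
  ∀ (K : Type) [Field K] [CharZero K] [IsAlgClosed K] (n : ℕ) (ε : K)
    (ψ : Matrix (Fin n) (Fin n) K) (d : Fin n → ℤ) (N : ℤ)
    (a : Submodule K (Matrix (Fin n) (Fin n) K)), TopD ε ψ d N a →
    ∀ A ∈ a, ∀ x y : Fin n → K, (∀ j, x j ≠ 0 → d j = N) → (∀ j, y j ≠ 0 → d j = -N) →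
      LL ψ ε x (inn d N (A.mulVec y)) ∈ a

/-- GEN: generation by `Q ⊗ R` (from `Smp.so_ideal`, `Smp.sp_ideal`). -/
def ST_GEN : Prop :=
  ∀ (K : Type) [Field K] [CharZero K] (n : ℕ) (ε : K) (ψ : Matrix (Fin n) (Fin n) K)
    (d : Fin n → ℤ) (N : ℤ) (a : Submodule K (Matrix (Fin n) (Fin n) K)), TopD ε ψ d N a →
    (∀ x ρ : Fin n → K, (∀ j, x j ≠ 0 → d j = N ∨ d j = -N) → (∀ j, ρ j ≠ 0 → |d j| < N) →
      LL ψ ε x ρ ∈ a) →
    ∀ A : Matrix (Fin n) (Fin n) K, A.transpose * ψ + ψ * A = 0 → A ∈ a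

/-- END: the endgame (from GEN). -/
def ST_END : Prop :=
  ∀ (K : Type) [Field K] [CharZero K] (n : ℕ) (ε : K) (ψ : Matrix (Fin n) (Fin n) K)
    (d : Fin n → ℤ) (N : ℤ) (a : Submodule K (Matrix (Fin n) (Fin n) K)), TopD ε ψ d N a →
    (∀ A ∈ a, ∀ x y : Fin n → K, (∀ j, x j ≠ 0 → d j = N) → (∀ j, y j ≠ 0 → d j = -N) →
      LL ψ ε x (inn d N (A.mulVec y)) ∈ a) →
    (∀ A ∈ a, ∀ x y : Fin n → K, (∀ j, x j ≠ 0 → d j = -N) → (∀ j, y j ≠ 0 → d j = N) →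
      LL ψ ε x (inn d N (A.mulVec y)) ∈ a) →
    ∀ A : Matrix (Fin n) (Fin n) K, A.transpose * ψ + ψ * A = 0 → A ∈ a

/-- TOP: the Lie theorem (from GRA, CMP for `d` and for `-d`, and END, after a change of basis). -/
def ST_TOP : Prop :=
  ∀ (K : Type) [Field K] [CharZero K] [IsAlgClosed K] (n w : ℕ) (h : Fin n → ℕ)
    (ψ : Matrix (Fin n) (Fin n) K) (P : Matrix.GeneralLinearGroup (Fin n) K)
    (a : Submodule K (Matrix (Fin n) (Fin n) K)), Thin w h → ψ.det ≠ 0 →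
    ψ.transpose = (-1 : K) ^ w • ψ → Brk a → LIrr a →
    (∀ A ∈ a, A.transpose * ψ + ψ * A = 0) →
    (P : Matrix (Fin n) (Fin n) K) * Matrix.diagonal (fun j => 2 * (h j : K) - (w : K)) *
      ((P⁻¹ : Matrix.GeneralLinearGroup (Fin n) K) : Matrix (Fin n) (Fin n) K) ∈ a →
    ∀ A : Matrix (Fin n) (Fin n) K, A.transpose * ψ + ψ * A = 0 → A ∈ a

/-- TOS: from an irreducible Lie algebra of similitudes over `K₀` whose span over `K` contains the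
grading element to the full Lie algebra of isometries (from RED and TOP). -/
def ST_TOS : Prop :=
  ∀ (K₀ K : Type) [Field K₀] [Field K] [CharZero K] [IsAlgClosed K] [Algebra K₀ K] (n w : ℕ)
    (h : Fin n → ℕ) (ψ : Matrix (Fin n) (Fin n) K₀) (P : Matrix.GeneralLinearGroup (Fin n) K)
    (a : Submodule K₀ (Matrix (Fin n) (Fin n) K₀)), Thin w h → ψ.det ≠ 0 →
    ψ.transpose = (-1 : K₀) ^ w • ψ → Brk a →
    (∀ A ∈ a, ∃ c : K₀, A.transpose * ψ + ψ * A = c • ψ) → 2 * ∑ j, h j = n * w →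
    (∀ U : Submodule K (Fin n → K),
      (∀ A ∈ a, ∀ v ∈ U, (A.map (algebraMap K₀ K)).mulVec v ∈ U) → U = ⊥ ∨ U = ⊤) →
    (P : Matrix (Fin n) (Fin n) K) * Matrix.diagonal (fun j => (h j : K)) *
      ((P⁻¹ : Matrix.GeneralLinearGroup (Fin n) K) : Matrix (Fin n) (Fin n) K) ∈
        Submodule.span K {B | ∃ A ∈ a, B = A.map (algebraMap K₀ K)} →
    ∀ A : Matrix (Fin n) (Fin n) K₀, A.transpose * ψ + ψ * A = 0 → A ∈ a

/-- OI1: middle Hodge number one: from the group to the Lie algebra. -/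
def ST_OI1 : Prop :=
  ∀ (K₀ K : Type) [Field K₀] [CharZero K₀] [Field K] [Algebra K₀ K] (n : ℕ)
    (ψ : Matrix (Fin n) (Fin n) K₀) (G : Subgroup (Matrix.GeneralLinearGroup (Fin n) K₀))
    (a : Submodule K₀ (Matrix (Fin n) (Fin n) K₀)) (Θ : Matrix (Fin n) (Fin n) K) (r : K)
    (e : Fin n → K), ψ.det ≠ 0 → ψ.transpose = ψ →
    (∀ A ∈ a, ∃ c : K₀, A.transpose * ψ + ψ * A = c • ψ) →
    (∀ g ∈ G, ∃ c : K₀, (g : Matrix (Fin n) (Fin n) K₀).transpose * ψ *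
      (g : Matrix (Fin n) (Fin n) K₀) = c • ψ) →
    (∀ g ∈ G, ∀ A ∈ a, (g : Matrix (Fin n) (Fin n) K₀) * A *
      ((g⁻¹ : Matrix.GeneralLinearGroup (Fin n) K₀) : Matrix (Fin n) (Fin n) K₀) ∈ a) →
    (∀ U : Submodule K₀ (Fin n → K₀), (∀ g ∈ G, ∀ v ∈ U,
      (g : Matrix (Fin n) (Fin n) K₀).mulVec v ∈ U) → U = ⊥ ∨ U = ⊤) →
    Θ ∈ Submodule.span K {B | ∃ A ∈ a, B = A.map (algebraMap K₀ K)} →
    Θ.transpose * ψ.map (algebraMap K₀ K) + ψ.map (algebraMap K₀ K) * Θ =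
      (2 * r) • ψ.map (algebraMap K₀ K) →
    e ≠ 0 → Θ.mulVec e = r • e → (∀ v, Θ.mulVec v = r • v → ∃ c : K, v = c • e) →
    (∀ v : Fin n → K, (Θ - r • (1 : Matrix (Fin n) (Fin n) K)).mulVec
      ((Θ - r • (1 : Matrix (Fin n) (Fin n) K)).mulVec v) = 0 → Θ.mulVec v = r • v) →
    LIrr a

/-- OI2: middle Hodge number one: irreducible Lie algebras are absolutely irreducible. -/
def ST_OI2 : Prop :=
  ∀ (K₀ K : Type) [Field K₀] [CharZero K₀] [Field K] [Algebra K₀ K] (n : ℕ)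
    (ψ : Matrix (Fin n) (Fin n) K₀) (a : Submodule K₀ (Matrix (Fin n) (Fin n) K₀))
    (Θ : Matrix (Fin n) (Fin n) K) (r : K) (e : Fin n → K), ψ.det ≠ 0 → ψ.transpose = ψ →
    (∀ A ∈ a, ∃ c : K₀, A.transpose * ψ + ψ * A = c • ψ) → LIrr a →
    Θ ∈ Submodule.span K {B | ∃ A ∈ a, B = A.map (algebraMap K₀ K)} →
    Θ.transpose * ψ.map (algebraMap K₀ K) + ψ.map (algebraMap K₀ K) * Θ =
      (2 * r) • ψ.map (algebraMap K₀ K) →
    e ≠ 0 → Θ.mulVec e = r • e → (∀ v, Θ.mulVec v = r • v → ∃ c : K, v = c • e) →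
    (∀ v : Fin n → K, (Θ - r • (1 : Matrix (Fin n) (Fin n) K)).mulVec
      ((Θ - r • (1 : Matrix (Fin n) (Fin n) K)).mulVec v) = 0 → Θ.mulVec v = r • v) →
    ∀ Y : Matrix (Fin n) (Fin n) K₀, (∀ A ∈ a, A * Y = Y * A) → ∃ c : K₀, Y = c • 1

/-! ## B. The `l`-adic side -/

/-- LGP: logarithms of matrices near `1` (Mathlib's exponential series over `ℚ_l`). -/
def ST_LGP : Prop :=
  ∀ (l : ℕ) [Fact l.Prime] (n : ℕ), ∃ V : Set (Matrix.GeneralLinearGroup (Fin n) ℚ_[l]),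
    IsOpen V ∧ 1 ∈ V ∧ ∀ g ∈ V, ∃ z : Matrix (Fin n) (Fin n) ℚ_[l],
      (g : Matrix (Fin n) (Fin n) ℚ_[l]) ∈ Algebra.adjoin ℚ_[l] {z} ∧
      ∀ X : Subgroup (Matrix.GeneralLinearGroup (Fin n) ℚ_[l]), g ∈ X → z ∈ LieZ X

/-- IRL: the Lie algebra is absolutely irreducible (from LGP and DEN; or OI1, OI2 and DEN). -/
def ST_IRL : Prop :=
  ∀ (F : Type) [Field F] [NumberField F] (S : Finset ℕ) (n w : ℕ) (h : Fin n → ℕ)
    (M : PMot F S n w h) (l : ℕ) [Fact l.Prime], 0 < w → M.AIrrL l →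
      ∀ H : Subgroup (Gal F), IsOpen (H : Set (Gal F)) → ∀ (K : Type) [Field K]
        [Algebra ℚ_[l] K] (U : Submodule K (Fin n → K)),
        (∀ A ∈ LieZ (H.map (M.ρ l)), ∀ v ∈ U, (A.map (algebraMap ℚ_[l] K)).mulVec v ∈ U) →
          U = ⊥ ∨ U = ⊤

/-- FUL9: the Lie algebra is large (from IRL, TOS and Sen's theorem). -/
def ST_FUL9 : Prop :=
  ∀ (F : Type) [Field F] [NumberField F] (S : Finset ℕ) (n w : ℕ) (h : Fin n → ℕ)
    (M : PMot F S n w h) (l : ℕ) [Fact l.Prime], 0 < w → Thin w h → M.AIrrL l →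
      ∀ H : Subgroup (Gal F), IsOpen (H : Set (Gal F)) → ∀ A : Matrix (Fin n) (Fin n) ℚ_[l],
        A.transpose * bas ℚ_[l] M.ψ + bas ℚ_[l] M.ψ * A = 0 → A ∈ LieZ (H.map (M.ρ l))

/-! ## C. The Hodge side -/

/-- HLA: the Lie algebra of the Mumford-Tate group. -/
def ST_HLA : Prop :=
  ∀ (F : Type) [Field F] [NumberField F] (S : Finset ℕ) (n w : ℕ) (h : Fin n → ℕ)
    (M : PMot F S n w h), ∃ a : Submodule ℚ (Matrix (Fin n) (Fin n) ℚ),
      (∀ A, A ∈ a ↔ ∀ (p q : ℕ) (t : Tensor n p q ℚ), M.IsHodge t → HD.Kill A t) ∧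
      Brk a ∧ (∀ A ∈ a, ∃ c : ℚ, A.transpose * M.ψ + M.ψ * A = c • M.ψ) ∧
      (M.hodge : Matrix (Fin n) (Fin n) ℂ) * Matrix.diagonal (fun j => (h j : ℂ)) *
        ((M.hodge⁻¹ : Matrix.GeneralLinearGroup (Fin n) ℂ) : Matrix (Fin n) (Fin n) ℂ) ∈
          Submodule.span ℂ {B | ∃ A ∈ a, B = A.map (algebraMap ℚ ℂ)}

/-- HIR: irreducibility (polarised Hodge structures are semisimple). -/
def ST_HIR : Prop :=
  ∀ (F : Type) [Field F] [NumberField F] (S : Finset ℕ) (n w : ℕ) (h : Fin n → ℕ)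
    (M : PMot F S n w h) (a : Submodule ℚ (Matrix (Fin n) (Fin n) ℚ)), M.AIrrH →
    (∀ A ∈ a, ∃ c : ℚ, A.transpose * M.ψ + M.ψ * A = c • M.ψ) →
    (M.hodge : Matrix (Fin n) (Fin n) ℂ) * Matrix.diagonal (fun j => (h j : ℂ)) *
      ((M.hodge⁻¹ : Matrix.GeneralLinearGroup (Fin n) ℂ) : Matrix (Fin n) (Fin n) ℂ) ∈
        Submodule.span ℂ {B | ∃ A ∈ a, B = A.map (algebraMap ℚ ℂ)} →
    LIrr a ∧ ∀ Y : Matrix (Fin n) (Fin n) ℚ, (∀ A ∈ a, A * Y = Y * A) → ∃ c : ℚ, Y = c • 1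

/-- TSC: tensors in `T^(p,p)` killed by the infinitesimal isometries are fixed by the identity
component of the group of similitudes (the extension of helper85's `HD.st_FIX` to even `n`). -/
def ST_TSC : Prop :=
  ∀ (n p w : ℕ) (ψ : Matrix (Fin n) (Fin n) ℚ) (t : Tensor n p p ℚ), 1 ≤ n → ψ.det ≠ 0 →
    ψ.transpose = (-1 : ℚ) ^ w • ψ →
    (∀ A : Matrix (Fin n) (Fin n) ℚ, A.transpose * ψ + ψ * A = 0 → HD.Kill A t) →
    ∀ (K : Type) [Field K] [CharZero K], ∀ g ∈ SimC w ψ K, act g (t.base K) = t.base K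

/-- HWT: the weight of a Hodge class is zero (contained in helper6's `ST_HOD`). -/
def ST_HWT : Prop :=
  ∀ (F : Type) [Field F] [NumberField F] (S : Finset ℕ) (n w : ℕ) (h : Fin n → ℕ)
    (M : PMot F S n w h) (p q : ℕ) (t : Tensor n p q ℚ), 0 < w → M.IsHodge t → t ≠ 0 → p = q

/-- HSM: the Hodge types are symmetric. -/
def ST_HSM : Prop :=
  ∀ (F : Type) [Field F] [NumberField F] (S : Finset ℕ) (n w : ℕ) (h : Fin n → ℕ)
    (_ : PMot F S n w h), 2 * ∑ j, h j = n * w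

/-- HSG: the Mumford-Tate group (from HLA, HIR, DEN, TOS, TSC, HWT, HDG7, HSM). -/
def ST_HSG : Prop :=
  ∀ (F : Type) [Field F] [NumberField F] (S : Finset ℕ) (n w : ℕ) (h : Fin n → ℕ)
    (M : PMot F S n w h), 0 < w → Thin w h → M.AIrrH → ∀ (K : Type) [Field K] [CharZero K],
      M.Gsigma K = SimC w M.ψ K

/-! ## D. The theorem -/

/-- MAIN9: the theorem. -/
def ST_MAIN9 : Prop :=
  ∀ (F : Type) [Field F] [NumberField F] (S : Finset ℕ) (n w : ℕ) (h : Fin n → ℕ)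
    (M : PMot F S n w h), 0 < w → Thin w h →
    (M.AIrrH → ∀ (K : Type) [Field K] [CharZero K],
      M.Gsigma K = SimC w M.ψ K ∧ M.Gsigma K ⊆ M.Gmot K ∧ M.Gmot K ⊆ Sim M.ψ K) ∧
    ∀ (l : ℕ) [Fact l.Prime], M.AIrrL l → ∀ (K : Type) [Field K] [Algebra ℚ_[l] K],
      (∀ H : Subgroup (Gal F), IsOpen (H : Set (Gal F)) → SimC w M.ψ K ⊆ ZC (M.ρ l '' H) K) ∧
      M.Gl0 l K = SimC w M.ψ K ∧ M.Gl0 l K ⊆ M.Gl l K ∧ M.Gl l K ⊆ M.Gmot K ∧
      M.Gmot K ⊆ Sim M.ψ K ∧ (Odd w ∨ Odd n → SimC w M.ψ K = Sim M.ψ K) ∧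
      (M.AIrrH → M.Gl0 l K = M.Gsigma K)

end MT
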