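import Pool.Agent.Helper21.MT8.Final8
import Pool.Agent.Helper21.MT9.KIR
import Pool.Agent.Helper21.MT9.ABE
import Pool.Agent.Helper21.MT9.HSG
import Pool.Agent.Helper21.MT9.FUL9
import Pool.Agent.Helper21.MT9.IRL
import Pool.Agent.Helper92.MT9.CMP
import Pool.Agent.Helper53.MT9.TPI
import Pool.Agent.Helper53.MT9.DEN
import Pool.Agent.Helper2.MT9.TOS
import Pool.Agent.Helper2.MT9.TOP
import Pool.Agent.Helper5.MT9.GRA
import Pool.Agent.Helper5.MT9.MAIN9
import Pool.Agent.Helper6.MT9.HLA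
import Pool.Agent.Helper6.MT9.HWT
import Pool.Agent.Helper25.MT9.HIR
import Pool.Agent.Helper84.MT9.OI2
import Pool.Agent.Helper85.MT9.TSC
import Pool.Agent.Helper80.MT9.OI1
import Pool.Agent.Helper3.MT9.RED
import Pool.Agent.Helper3.MT9.LGP
import Pool.Agent.Helper53.MT9.END
import Pool.Agent.Helper14.MT9.GEN

/-!
# The final theorem (T9)
-/

set_option autoImplicit false

open NumberField MU

namespace MT

theorem main9_final : ST_MAIN9 := by
  have top : ST_TOP := st_TOP st_GRA (st_CMP (st_KIR st_RED st_TPI st_ABE)) (st_END st_GEN)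
  have tos : ST_TOS := st_TOS st_RED top
  have hsg : ST_HSG := st_HSG st_HLA (st_HIR st_OI2) st_DEN tos st_TSC st_HWT (st_HDG7 st_TEN)
    st_HSM
  have irl : ST_IRL := st_IRL st_LGP st_DEN st_OI1 st_OI2 st_ZAR st_HSM
  exact st_MAIN9 (st_FUL9 irl tos st_ZAR st_HSM) hsg st_ZAR st_TEN st_SIM st_SIM7 st_ISM
    (st_G07 st_TEN) st_IDX st_FRE st_CYC

end MT
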