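import Pool.Agent.Helper21.MT7.Defs
import Pool.Agent.Helper85.MU.Stmts

/-!
# Polarised motives with small inner Hodge numbers
-/

set_option autoImplicit false

open NumberField MU

namespace MT

/-- The Hodge numbers are at most one, and at most two in the middle, except for the outermost
ones, which are at least two; and there are inner ones. (The type `(p, w - p)` occurs `h^(p, w - p)`
times in the list `h`, and `m` is the largest `p` which occurs.) -/
def Thin {n : ℕ} (w : ℕ) (h : Fin n → ℕ) : Prop :=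
  ∃ m : ℕ, w < 2 * m ∧ (∀ j, h j ≤ m ∧ w ≤ h j + m) ∧
    2 ≤ (Finset.univ.filter fun j => h j = m).card ∧
    (∃ j, h j ≠ m ∧ h j + m ≠ w) ∧
    ∀ p : ℕ, p ≠ m → p + m ≠ w →
      (Finset.univ.filter fun j => h j = p).card ≤ if 2 * p = w then 2 else 1

variable {F : Type} [Field F] [NumberField F] {S : Finset ℕ} {n w : ℕ} {h : Fin n → ℕ}

/-- The Hodge structure is irreducible (over `ℚ`) -/
def PMot.HIrr (M : PMot F S n w h) : Prop :=
  ∀ (m : ℕ) (B : Matrix (Fin n) (Fin m) ℚ), (∃ C : Matrix (Fin m) (Fin n) ℚ, C * B = 1) →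
    (∀ z : ℂˣ, ∃ A : Matrix (Fin m) (Fin m) ℂ,
      (hz M.hodge h w z : Matrix (Fin n) (Fin n) ℂ) * B.map (fun x : ℚ => (x : ℂ)) =
        B.map (fun x : ℚ => (x : ℂ)) * A) → m = 0 ∨ m = n

/-- The endomorphisms of the Hodge structure are the rational numbers. -/
def PMot.HEnd (M : PMot F S n w h) : Prop :=
  ∀ X : Matrix (Fin n) (Fin n) ℚ,
    (∀ z : ℂˣ, (hz M.hodge h w z : Matrix (Fin n) (Fin n) ℂ) * bas ℂ X =
      bas ℂ X * (hz M.hodge h w z : Matrix (Fin n) (Fin n) ℂ)) → ∃ c : ℚ, X = c • 1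

/-- The `l`-adic realisation is irreducible with scalar endomorphisms over every finite extension. -/
def PMot.LEnd (M : PMot F S n w h) (l : ℕ) [Fact l.Prime] : Prop :=
  ∀ H : Subgroup (Gal F), IsOpen (H : Set (Gal F)) →
    IsIrr ((mat (M.ρ l)).comp H.subtype) ∧
    ∀ X : Matrix (Fin n) (Fin n) ℚ_[l], (∀ g ∈ H, mat (M.ρ l) g * X = X * mat (M.ρ l) g) →
      ∃ c : ℚ_[l], X = c • 1

/-- The Hodge number in the middle is one. -/
def Mid {n : ℕ} (w : ℕ) (h : Fin n → ℕ) : Prop :=
  (Finset.univ.filter fun j => 2 * h j = w).card = 1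

/-- The Hodge structure has endomorphisms `ℚ`; or it is irreducible with middle Hodge number
one. -/
def PMot.AIrrH (M : PMot F S n w h) : Prop := M.HEnd ∨ (Mid w h ∧ M.HIrr)

/-- The `l`-adic realisation is irreducible with scalar endomorphisms over every finite extension;
or it is irreducible and the middle Hodge number is one. -/
def PMot.AIrrL (M : PMot F S n w h) (l : ℕ) [Fact l.Prime] : Prop :=
  M.LEnd l ∨ (Mid w h ∧ IsIrr (mat (M.ρ l)))

end MT
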